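import Mathlib
import Pool.Agent.H15.DS2
import Pool.Agent.H15.DS3

set_option autoImplicit false

namespace Pool.Agent.Results.MP_9bb08e_al.Exists

/-- `K` is a real closed ordered field, algebraic over `ℚ(t)`, in which `t > n` for all `n`,
i.e. the real closure of `ℚ(t)` ordered with `t` positive infinite. It has a dense subfield
in which `ℚ` is relatively algebraically closed. -/
theorem result (K : Type*) [Field K] [LinearOrder K] [IsStrictOrderedRing K] [IsRealClosed K]
    [Algebra (RatFunc ℚ) K] [Algebra.IsAlgebraic (RatFunc ℚ) K]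
    (ht : ∀ n : ℕ, (n : K) < algebraMap (RatFunc ℚ) K RatFunc.X) :
    ∃ F : Subfield K, (∀ a b : K, a < b → ∃ f ∈ F, a < f ∧ f < b) ∧
      ∀ x ∈ F, IsAlgebraic ℚ x → ∃ q : ℚ, x = (q : K) :=
  Pool.Agent.H15.DS2.main K (fun p a b hab h => Pool.Agent.H15.DS3.ivt p a b hab h) ht

end Pool.Agent.Results.MP_9bb08e_al.Exists
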